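import Mathlib
import Pool.Agent.W203.SP.Stm
set_option autoImplicit false

/-! The averaged fourth moment with a cut-off amplitude. -/

namespace Pool.Agent.W7.SP

open MeasureTheory Set Complex Filter
open scoped ENNReal NNReal FourierTransform RealInnerProductSpace ContDiff
open Pool.Agent.H153R4 (E BS ch ST cube kk dd)
open Pool.Agent.W203.SP

/-- Jensen for the fourth power -/
lemma jen4 {X : Type*} [MeasurableSpace X] (μ : Measure X) (f G : X → ℝ≥0∞) (hf : Measurable f)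
    (hG : Measurable G) :
    (∫⁻ x, f x * G x ∂μ) ^ 4 ≤ (∫⁻ x, f x ∂μ) ^ 3 * ∫⁻ x, f x * G x ^ 4 ∂μ := by
  have hpq : (Real.conjExponent 4).HolderConjugate 4 :=
    (Real.HolderConjugate.conjExponent (by norm_num)).symm
  have h2 := ENNReal.lintegral_mul_le_Lp_mul_Lq (μ.withDensity f) hpq
    (f := fun _ => 1) (g := G) aemeasurable_const hG.aemeasurable
  simp only [Pi.mul_apply, one_mul, ENNReal.one_rpow] at h2
  rw [lintegral_withDensity_eq_lintegral_mul _ hf hG,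
    lintegral_withDensity_eq_lintegral_mul _ hf (hG.pow_const (4 : ℝ)),
    lintegral_withDensity_eq_lintegral_mul _ hf measurable_const] at h2
  simp only [Pi.mul_apply, mul_one] at h2
  have h3 := ENNReal.rpow_le_rpow h2 (by norm_num : (0 : ℝ) ≤ 4)
  rw [ENNReal.mul_rpow_of_nonneg _ _ (by norm_num : (0 : ℝ) ≤ 4), ← ENNReal.rpow_mul,
    ← ENNReal.rpow_mul] at h3
  have e1 : 1 / Real.conjExponent 4 * 4 = 3 := by
    unfold Real.conjExponent
    norm_num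
  have e2 : (1 : ℝ) / 4 * 4 = 1 := by norm_num
  have e4 : ∀ x : ℝ≥0∞, x ^ (4 : ℝ) = x ^ (4 : ℕ) := fun x => by
    rw [← ENNReal.rpow_natCast]; norm_num
  have e3 : ∀ x : ℝ≥0∞, x ^ (3 : ℝ) = x ^ (3 : ℕ) := fun x => by
    rw [← ENNReal.rpow_natCast]; norm_num
  rw [e1, e2, ENNReal.rpow_one, e3, e4] at h3
  simp only [e4] at h3
  exact h3

/-- interchange -/
lemma swp {X Y : Type*} [MeasurableSpace X] [MeasurableSpace Y] (μ : Measure X) (ν : Measure Y)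
    [SFinite μ] [SFinite ν] (g : Y → ℝ≥0∞) (H : X → Y → ℝ≥0∞) (hg : Measurable g)
    (hH : Measurable fun p : Y × X => H p.2 p.1) :
    ∫⁻ x, (∫⁻ z, g z * H x z ∂ν) ∂μ = ∫⁻ z, g z * (∫⁻ x, H x z ∂μ) ∂ν := by
  rw [lintegral_lintegral_swap]
  · refine lintegral_congr fun z => ?_
    rw [lintegral_const_mul]
    exact hH.comp (by fun_prop : Measurable fun x : X => (z, x))
  · refine Measurable.aemeasurable ?_
    exact (hg.comp measurable_snd).mul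
      (hH.comp (by fun_prop : Measurable fun p : X × Y => (p.2, p.1)))

/-- the fourth power of a sum -/
lemma pow4 (a b : ℂ) : ‖a + b‖ₑ ^ 4 ≤ 8 * (‖a‖ₑ ^ 4 + ‖b‖ₑ ^ 4) := by
  have h : ‖a + b‖ ^ 4 ≤ 8 * (‖a‖ ^ 4 + ‖b‖ ^ 4) := by
    have h0 := norm_add_le a b
    have h1 : ‖a + b‖ ^ 4 ≤ (‖a‖ + ‖b‖) ^ 4 := pow_le_pow_left₀ (norm_nonneg _) h0 4
    have h2 : (‖a‖ + ‖b‖) ^ 2 ≤ 2 * (‖a‖ ^ 2 + ‖b‖ ^ 2) := by nlinarith [sq_nonneg (‖a‖ - ‖b‖)]
    have h3 : ((‖a‖ + ‖b‖) ^ 2) ^ 2 ≤ (2 * (‖a‖ ^ 2 + ‖b‖ ^ 2)) ^ 2 :=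
      pow_le_pow_left₀ (by positivity) h2 2
    nlinarith [sq_nonneg (‖a‖ ^ 2 - ‖b‖ ^ 2)]
  have h' := ENNReal.ofReal_le_ofReal h
  rw [ENNReal.ofReal_mul (by norm_num), ENNReal.ofReal_add (by positivity) (by positivity),
    ENNReal.ofReal_pow (norm_nonneg _), ENNReal.ofReal_pow (norm_nonneg _),
    ENNReal.ofReal_pow (norm_nonneg _), ofReal_norm, ofReal_norm, ofReal_norm] at h'
  simpa using h'

/-- the change of variables -/
lemma cov (T z : ℝ) (hT : 1 ≤ T) (hz : z ∈ Icc (-(T / 4)) (T / 4)) (P : ℝ → ℝ≥0∞) :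
    ∫⁻ t in Icc (T / 2) (2 * T), P ((t + z) ^ 2 / 4) ≤
      ENNReal.ofReal (8 / T) * ∫⁻ l in Icc (-(4 * T ^ 2)) (4 * T ^ 2), P l := by
  have hT0 : 0 < T := by linarith
  have hs : MeasurableSet (Icc (T / 2) (2 * T)) := measurableSet_Icc
  have hd : ∀ t ∈ Icc (T / 2) (2 * T), HasDerivWithinAt (fun t : ℝ => (t + z) ^ 2 / 4)
      ((t + z) / 2) (Icc (T / 2) (2 * T)) t := by
    intro t _
    have h : HasDerivAt (fun t : ℝ => (t + z) ^ 2 / 4) ((t + z) / 2) t := by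
      have h0 : HasDerivAt (fun t : ℝ => t + z) 1 t := (hasDerivAt_id t).add_const z
      have h1 : HasDerivAt (fun t : ℝ => (t + z) ^ 2) (2 * (t + z)) t := by
        have := h0.pow 2
        norm_num at this
        exact this
      have h2 := h1.div_const 4
      rwa [show 2 * (t + z) / 4 = (t + z) / 2 by ring] at h2
    exact h.hasDerivWithinAt
  have hi : InjOn (fun t : ℝ => (t + z) ^ 2 / 4) (Icc (T / 2) (2 * T)) := by
    intro a ha b hb hab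
    simp only at hab
    have h1 : 0 < (a + z) + (b + z) := by linarith [ha.1, hb.1, hz.1]
    have h2 : (a - b) * ((a + z) + (b + z)) = 0 := by nlinarith
    rcases mul_eq_zero.1 h2 with h | h
    · linarith
    · exact absurd h h1.ne'
  have key := lintegral_image_eq_lintegral_abs_deriv_mul hs hd hi P
  have himg : (fun t : ℝ => (t + z) ^ 2 / 4) '' Icc (T / 2) (2 * T) ⊆
      Icc (-(4 * T ^ 2)) (4 * T ^ 2) := by
    rintro _ ⟨t, ht, rfl⟩
    have h1 : 0 < t + z := by linarith [ht.1, hz.1]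
    have h2 : t + z ≤ 9 * T / 4 := by linarith [ht.2, hz.2]
    constructor
    · simp only
      nlinarith
    · simp only
      nlinarith
  calc ∫⁻ t in Icc (T / 2) (2 * T), P ((t + z) ^ 2 / 4)
      ≤ ∫⁻ t in Icc (T / 2) (2 * T), ENNReal.ofReal (8 / T) *
          (ENNReal.ofReal |(t + z) / 2| * P ((t + z) ^ 2 / 4)) := by
        refine setLIntegral_mono' hs fun t ht => ?_
        rw [← mul_assoc, ← ENNReal.ofReal_mul (by positivity)]
        have h1 : (1 : ℝ) ≤ 8 / T * |(t + z) / 2| := by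
          rw [abs_of_nonneg (by linarith [ht.1, hz.1])]
          rw [div_mul_eq_mul_div, le_div_iff₀ hT0]
          linarith [ht.1, hz.1]
        calc P ((t + z) ^ 2 / 4) = 1 * P ((t + z) ^ 2 / 4) := (one_mul _).symm
          _ ≤ _ := by
            gcongr
            rw [← ENNReal.ofReal_one]
            exact ENNReal.ofReal_le_ofReal h1
    _ = ENNReal.ofReal (8 / T) * ∫⁻ t in Icc (T / 2) (2 * T),
          (ENNReal.ofReal |(t + z) / 2| * P ((t + z) ^ 2 / 4)) := by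
        rw [lintegral_const_mul' _ _ ENNReal.ofReal_ne_top]
    _ = ENNReal.ofReal (8 / T) *
          ∫⁻ l in (fun t : ℝ => (t + z) ^ 2 / 4) '' Icc (T / 2) (2 * T), P l := by rw [key]
    _ ≤ _ := by gcongr

/-- the main part -/
lemma main (h5 : S_MU) (k : ℕ) (T e : ℝ) (hT : 1 ≤ T) (f : E k → ℂ) (hf : Measurable f)
    (G : ℝ → ℂ) (hG : Continuous G) :
    ∫⁻ t in Icc (T / 2) (2 * T), ∫⁻ w in Icc (1 : ℝ) 2,
      ∫⁻ u in Icc (fun _ : Fin k => (0 : ℝ)) (fun _ => 2), ∫⁻ x,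
        ‖∫ z in Icc (-(T / 4)) (T / 4), G z * U0 T e ((t + z) ^ 2 / 4) w u f x‖ₑ ^ 4 ≤
      (∫⁻ z, ‖G z‖ₑ) ^ 4 * (ENNReal.ofReal (8 / T) *
        ∫⁻ l in Icc (-(4 * T ^ 2)) (4 * T ^ 2), ∫⁻ w,
          ∫⁻ u in Icc (fun _ : Fin k => (-2 : ℝ)) (fun _ => 2), ∫⁻ x, ‖U0 T e l w u f x‖ₑ ^ 4) := by
  set A : ℝ≥0∞ := ∫⁻ z, ‖G z‖ₑ with hA
  set I : Set ℝ := Icc (-(T / 4)) (T / 4) with hI
  set F : (((ℝ × ℝ) × ℝ) × (Fin k → ℝ)) × E k → ℝ≥0∞ := fun q =>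
    ‖U0 T e ((q.1.1.1.1 + q.1.1.1.2) ^ 2 / 4) q.1.1.2 q.1.2 f q.2‖ₑ ^ 4 with hF
  have mU := h5 k T e f hf
  have m4 : Measurable F := by
    have hc : Measurable fun q : (((ℝ × ℝ) × ℝ) × (Fin k → ℝ)) × E k =>
        ((((q.1.1.1.1 + q.1.1.1.2) ^ 2 / 4, q.1.1.2), q.1.2), q.2) := by fun_prop
    exact ((mU.comp hc).enorm).pow_const 4
  have m3 : Measurable fun q : ((ℝ × ℝ) × ℝ) × (Fin k → ℝ) => ∫⁻ x, F (q, x) :=
    m4.lintegral_prod_right'
  have m2 : Measurable fun q : (ℝ × ℝ) × ℝ =>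
      ∫⁻ u in Icc (fun _ : Fin k => (0 : ℝ)) (fun _ => 2), ∫⁻ x, F ((q, u), x) :=
    m3.lintegral_prod_right' (ν := volume.restrict (Icc (fun _ : Fin k => (0 : ℝ)) (fun _ => 2)))
  have m1 : Measurable fun q : ℝ × ℝ => ∫⁻ w in Icc (1 : ℝ) 2,
      ∫⁻ u in Icc (fun _ : Fin k => (0 : ℝ)) (fun _ => 2), ∫⁻ x, F (((q, w), u), x) :=
    m2.lintegral_prod_right' (ν := volume.restrict (Icc (1 : ℝ) 2))
  have hgm : Measurable fun z => ‖G z‖ₑ := hG.measurable.enorm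
  -- pointwise
  have p0 : ∀ t w (u : Fin k → ℝ) x,
      ‖∫ z in I, G z * U0 T e ((t + z) ^ 2 / 4) w u f x‖ₑ ^ 4 ≤
        A ^ 3 * ∫⁻ z in I, ‖G z‖ₑ * F ((((t, z), w), u), x) := by
    intro t w u x
    have hm : Measurable fun z : ℝ => ‖U0 T e ((t + z) ^ 2 / 4) w u f x‖ₑ := by
      have hc : Measurable fun z : ℝ => ((((t + z) ^ 2 / 4, w), u), x) := by fun_prop
      exact (mU.comp hc).enorm
    have j := jen4 (volume.restrict I) (fun z => ‖G z‖ₑ)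
      (fun z => ‖U0 T e ((t + z) ^ 2 / 4) w u f x‖ₑ) hgm hm
    have hle : ‖∫ z in I, G z * U0 T e ((t + z) ^ 2 / 4) w u f x‖ₑ ≤
        ∫⁻ z in I, ‖G z‖ₑ * ‖U0 T e ((t + z) ^ 2 / 4) w u f x‖ₑ := by
      refine (enorm_integral_le_lintegral_enorm _).trans ?_
      simp only [enorm_mul]
      exact le_rfl
    refine (pow_le_pow_left' hle 4).trans (j.trans ?_)
    gcongr
    exact setLIntegral_le_lintegral _ _
  have s1 : ∀ t w (u : Fin k → ℝ),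
      ∫⁻ x, ‖∫ z in I, G z * U0 T e ((t + z) ^ 2 / 4) w u f x‖ₑ ^ 4 ≤
        A ^ 3 * ∫⁻ z in I, ‖G z‖ₑ * ∫⁻ x, F ((((t, z), w), u), x) := by
    intro t w u
    refine (lintegral_mono fun x => p0 t w u x).trans (le_of_eq ?_)
    rw [lintegral_const_mul]
    · congr 1
      exact swp volume (volume.restrict I) (fun z => ‖G z‖ₑ)
        (fun x z => F ((((t, z), w), u), x)) hgm (m4.comp (by fun_prop :
          Measurable fun p : ℝ × E k => ((((t, p.1), w), u), p.2)))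
    · have : Measurable fun p : E k × ℝ => ‖G p.2‖ₑ * F ((((t, p.2), w), u), p.1) :=
        (hgm.comp measurable_snd).mul (m4.comp (by fun_prop :
          Measurable fun p : E k × ℝ => ((((t, p.2), w), u), p.1)))
      exact this.lintegral_prod_right' (ν := volume.restrict I)
  have s2 : ∀ t w, ∫⁻ u in Icc (fun _ : Fin k => (0 : ℝ)) (fun _ => 2), ∫⁻ x,
      ‖∫ z in I, G z * U0 T e ((t + z) ^ 2 / 4) w u f x‖ₑ ^ 4 ≤
        A ^ 3 * ∫⁻ z in I, ‖G z‖ₑ *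
          ∫⁻ u in Icc (fun _ : Fin k => (0 : ℝ)) (fun _ => 2), ∫⁻ x, F ((((t, z), w), u), x) := by
    intro t w
    refine (lintegral_mono fun u => s1 t w u).trans (le_of_eq ?_)
    rw [lintegral_const_mul]
    · congr 1
      exact swp _ (volume.restrict I) (fun z => ‖G z‖ₑ)
        (fun u z => ∫⁻ x, F ((((t, z), w), u), x)) hgm (m3.comp (by fun_prop :
          Measurable fun p : ℝ × (Fin k → ℝ) => (((t, p.1), w), p.2)))
    · have : Measurable fun p : (Fin k → ℝ) × ℝ =>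
          ‖G p.2‖ₑ * ∫⁻ x, F ((((t, p.2), w), p.1), x) :=
        (hgm.comp measurable_snd).mul (m3.comp (by fun_prop :
          Measurable fun p : (Fin k → ℝ) × ℝ => (((t, p.2), w), p.1)))
      exact this.lintegral_prod_right' (ν := volume.restrict I)
  have s3 : ∀ t, ∫⁻ w in Icc (1 : ℝ) 2,
      ∫⁻ u in Icc (fun _ : Fin k => (0 : ℝ)) (fun _ => 2), ∫⁻ x,
      ‖∫ z in I, G z * U0 T e ((t + z) ^ 2 / 4) w u f x‖ₑ ^ 4 ≤
        A ^ 3 * ∫⁻ z in I, ‖G z‖ₑ * ∫⁻ w in Icc (1 : ℝ) 2,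
          ∫⁻ u in Icc (fun _ : Fin k => (0 : ℝ)) (fun _ => 2), ∫⁻ x, F ((((t, z), w), u), x) := by
    intro t
    refine (lintegral_mono fun w => s2 t w).trans (le_of_eq ?_)
    rw [lintegral_const_mul]
    · congr 1
      exact swp _ (volume.restrict I) (fun z => ‖G z‖ₑ)
        (fun w z => ∫⁻ u in Icc (fun _ : Fin k => (0 : ℝ)) (fun _ => 2), ∫⁻ x,
          F ((((t, z), w), u), x)) hgm (m2.comp (by fun_prop :
          Measurable fun p : ℝ × ℝ => ((t, p.1), p.2)))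
    · have : Measurable fun p : ℝ × ℝ =>
          ‖G p.2‖ₑ * ∫⁻ u in Icc (fun _ : Fin k => (0 : ℝ)) (fun _ => 2), ∫⁻ x,
            F ((((t, p.2), p.1), u), x) :=
        (hgm.comp measurable_snd).mul (m2.comp (by fun_prop :
          Measurable fun p : ℝ × ℝ => ((t, p.2), p.1)))
      exact this.lintegral_prod_right' (ν := volume.restrict I)
  have s4 : ∫⁻ t in Icc (T / 2) (2 * T), ∫⁻ w in Icc (1 : ℝ) 2,
      ∫⁻ u in Icc (fun _ : Fin k => (0 : ℝ)) (fun _ => 2), ∫⁻ x,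
      ‖∫ z in I, G z * U0 T e ((t + z) ^ 2 / 4) w u f x‖ₑ ^ 4 ≤
        A ^ 3 * ∫⁻ z in I, ‖G z‖ₑ * ∫⁻ t in Icc (T / 2) (2 * T), ∫⁻ w in Icc (1 : ℝ) 2,
          ∫⁻ u in Icc (fun _ : Fin k => (0 : ℝ)) (fun _ => 2), ∫⁻ x, F ((((t, z), w), u), x) := by
    refine (lintegral_mono fun t => s3 t).trans (le_of_eq ?_)
    rw [lintegral_const_mul]
    · congr 1
      exact swp _ (volume.restrict I) (fun z => ‖G z‖ₑ)
        (fun t z => ∫⁻ w in Icc (1 : ℝ) 2,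
          ∫⁻ u in Icc (fun _ : Fin k => (0 : ℝ)) (fun _ => 2), ∫⁻ x,
          F ((((t, z), w), u), x)) hgm (m1.comp (by fun_prop :
          Measurable fun p : ℝ × ℝ => (p.2, p.1)))
    · have : Measurable fun p : ℝ × ℝ =>
          ‖G p.2‖ₑ * ∫⁻ w in Icc (1 : ℝ) 2,
            ∫⁻ u in Icc (fun _ : Fin k => (0 : ℝ)) (fun _ => 2), ∫⁻ x,
            F ((((p.1, p.2), w), u), x) :=
        (hgm.comp measurable_snd).mul m1
      exact this.lintegral_prod_right' (ν := volume.restrict I)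
  refine s4.trans ?_
  set B : ℝ≥0∞ := ENNReal.ofReal (8 / T) *
        ∫⁻ l in Icc (-(4 * T ^ 2)) (4 * T ^ 2), ∫⁻ w,
          ∫⁻ u in Icc (fun _ : Fin k => (-2 : ℝ)) (fun _ => 2), ∫⁻ x, ‖U0 T e l w u f x‖ₑ ^ 4
    with hB
  have c1 : ∀ z ∈ I, ∫⁻ t in Icc (T / 2) (2 * T), ∫⁻ w in Icc (1 : ℝ) 2,
          ∫⁻ u in Icc (fun _ : Fin k => (0 : ℝ)) (fun _ => 2), ∫⁻ x, F ((((t, z), w), u), x) ≤
        B := by
    intro z hz
    refine (cov T z hT hz (fun l => ∫⁻ w in Icc (1 : ℝ) 2,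
      ∫⁻ u in Icc (fun _ : Fin k => (0 : ℝ)) (fun _ => 2), ∫⁻ x, ‖U0 T e l w u f x‖ₑ ^ 4)).trans ?_
    rw [hB]
    refine mul_le_mul' le_rfl (lintegral_mono fun l => ?_)
    refine (setLIntegral_le_lintegral _ _).trans (lintegral_mono fun w => ?_)
    refine lintegral_mono_set ?_
    refine Icc_subset_Icc ?_ le_rfl
    intro i
    norm_num
  calc A ^ 3 * ∫⁻ z in I, ‖G z‖ₑ * ∫⁻ t in Icc (T / 2) (2 * T), ∫⁻ w in Icc (1 : ℝ) 2,
          ∫⁻ u in Icc (fun _ : Fin k => (0 : ℝ)) (fun _ => 2), ∫⁻ x, F ((((t, z), w), u), x)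
      ≤ A ^ 3 * ∫⁻ z in I, ‖G z‖ₑ * B := by
        refine mul_le_mul' le_rfl ?_
        exact setLIntegral_mono' measurableSet_Icc fun z hz => mul_le_mul' le_rfl (c1 z hz)
    _ = A ^ 3 * ((∫⁻ z in I, ‖G z‖ₑ) * B) := by rw [lintegral_mul_const _ hgm]
    _ ≤ A ^ 3 * (A * B) := by
        gcongr
        exact setLIntegral_le_lintegral _ _
    _ = A ^ 4 * B := by ring

/-- adding the two parts -/
lemma addp {X : Type*} [MeasurableSpace X] (μ : Measure X) (F a b : X → ℂ)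
    (hF : ∀ x, F x = a x + b x) (ha : Measurable a) (R : ℝ≥0∞)
    (hb : ∫⁻ x, ‖b x‖ₑ ^ 4 ∂μ ≤ R) :
    ∫⁻ x, ‖F x‖ₑ ^ 4 ∂μ ≤ 8 * (∫⁻ x, ‖a x‖ₑ ^ 4 ∂μ) + 8 * R := by
  have h8 : (8 : ℝ≥0∞) < ⊤ := by norm_num
  calc ∫⁻ x, ‖F x‖ₑ ^ 4 ∂μ ≤ ∫⁻ x, (8 * ‖a x‖ₑ ^ 4 + 8 * ‖b x‖ₑ ^ 4) ∂μ := by
        refine lintegral_mono fun x => ?_
        rw [hF x, ← mul_add]
        exact pow4 _ _
    _ = 8 * (∫⁻ x, ‖a x‖ₑ ^ 4 ∂μ) + 8 * ∫⁻ x, ‖b x‖ₑ ^ 4 ∂μ := by
        have hm : Measurable fun x => ‖a x‖ₑ ^ 4 := ha.enorm.pow_const 4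
        rw [lintegral_add_left (hm.const_mul 8), lintegral_const_mul _ hm,
          lintegral_const_mul' _ _ h8.ne]
    _ ≤ _ := by gcongr

/-- integration of a bound -/
lemma intb {X : Type*} [MeasurableSpace X] (μ : Measure X) (F a : X → ℝ≥0∞) (R : ℝ≥0∞)
    (hF : ∀ᵐ x ∂μ, F x ≤ 8 * a x + R) :
    ∫⁻ x, F x ∂μ ≤ 8 * (∫⁻ x, a x ∂μ) + R * μ univ := by
  have h8 : (8 : ℝ≥0∞) < ⊤ := by norm_num
  refine (lintegral_mono_ae hF).trans (le_of_eq ?_)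
  rw [lintegral_add_right _ measurable_const, lintegral_const_mul' _ _ h8.ne, lintegral_const]

/-- measurability of the main part -/
lemma mainm (h5 : S_MU) (k : ℕ) (T e t w : ℝ) (u : Fin k → ℝ) (f : E k → ℂ) (hf : Measurable f)
    (G : ℝ → ℂ) (hG : Continuous G) :
    Measurable fun x => ∫ z in Icc (-(T / 4)) (T / 4), G z * U0 T e ((t + z) ^ 2 / 4) w u f x := by
  have mU := h5 k T e f hf
  have hc : Measurable fun p : E k × ℝ => ((((t + p.2) ^ 2 / 4, w), u), p.1) := by fun_prop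
  have h6 : Measurable fun p : E k × ℝ => U0 T e ((t + p.2) ^ 2 / 4) w u f p.1 := by
    have := mU.comp hc
    simp only [Function.comp_def] at this
    exact this
  have h7 : Measurable fun p : E k × ℝ => G p.2 := hG.measurable.comp measurable_snd
  have hj : StronglyMeasurable fun p : E k × ℝ =>
      G p.2 * U0 T e ((t + p.2) ^ 2 / 4) w u f p.1 := (h7.mul h6).stronglyMeasurable
  have h8 := hj.integral_prod_right' (ν := volume.restrict (Icc (-(T / 4)) (T / 4)))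
  exact h8.measurable

/-- the integrated decomposition -/
lemma dec3 (k : ℕ) (T : ℝ) (F a : ℝ → ℝ → (Fin k → ℝ) → ℝ≥0∞) (R : ℝ≥0∞)
    (h : ∀ t ∈ Icc (T / 2) (2 * T), ∀ w u, F t w u ≤ 8 * a t w u + R) :
    ∫⁻ t in Icc (T / 2) (2 * T), ∫⁻ w in Icc (1 : ℝ) 2,
      ∫⁻ u in Icc (fun _ : Fin k => (0 : ℝ)) (fun _ => 2), F t w u ≤
      8 * (∫⁻ t in Icc (T / 2) (2 * T), ∫⁻ w in Icc (1 : ℝ) 2,
        ∫⁻ u in Icc (fun _ : Fin k => (0 : ℝ)) (fun _ => 2), a t w u) +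
        R * volume (Icc (fun _ : Fin k => (0 : ℝ)) (fun _ => 2)) *
          (ENNReal.ofReal (3 / 2) * ENNReal.ofReal T) := by
  have vT : volume (Icc (T / 2) (2 * T)) = ENNReal.ofReal (3 / 2) * ENNReal.ofReal T := by
    rw [Real.volume_Icc, ← ENNReal.ofReal_mul (by norm_num)]
    congr 1
    ring
  have v1 : volume (Icc (1 : ℝ) 2) = 1 := by
    rw [Real.volume_Icc]
    norm_num
  have s1 : ∀ t ∈ Icc (T / 2) (2 * T), ∀ w,
      ∫⁻ u in Icc (fun _ : Fin k => (0 : ℝ)) (fun _ => 2), F t w u ≤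
      8 * (∫⁻ u in Icc (fun _ : Fin k => (0 : ℝ)) (fun _ => 2), a t w u) +
        R * volume (Icc (fun _ : Fin k => (0 : ℝ)) (fun _ => 2)) := by
    intro t ht w
    have := intb (volume.restrict (Icc (fun _ : Fin k => (0 : ℝ)) (fun _ => 2))) (F t w) (a t w) R
      (ae_of_all _ fun u => h t ht w u)
    rwa [Measure.restrict_apply_univ] at this
  have s2 : ∀ t ∈ Icc (T / 2) (2 * T), ∫⁻ w in Icc (1 : ℝ) 2,
      ∫⁻ u in Icc (fun _ : Fin k => (0 : ℝ)) (fun _ => 2), F t w u ≤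
      8 * (∫⁻ w in Icc (1 : ℝ) 2, ∫⁻ u in Icc (fun _ : Fin k => (0 : ℝ)) (fun _ => 2), a t w u) +
        R * volume (Icc (fun _ : Fin k => (0 : ℝ)) (fun _ => 2)) := by
    intro t ht
    have := intb (volume.restrict (Icc (1 : ℝ) 2)) _ _ _ (ae_of_all _ fun w => s1 t ht w)
    rwa [Measure.restrict_apply_univ, v1, mul_one] at this
  have := intb (volume.restrict (Icc (T / 2) (2 * T))) _ _ _
    ((ae_restrict_iff' measurableSet_Icc).2 (ae_of_all _ s2))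
  rwa [Measure.restrict_apply_univ, vT] at this

/-- exponents of the main part -/
lemma exp1 (k : ℕ) (T e e' : ℝ) (hT : 1 ≤ T) (hee : (13 + 2 * k) * e' ≤ e) :
    ENNReal.ofReal (8 / T) * ENNReal.ofReal (T ^ (2 - k + (13 + 2 * k) * e')) ≤
      ENNReal.ofReal 8 * ENNReal.ofReal (T ^ (1 - k + e)) := by
  have hT0 : 0 < T := by linarith
  rw [← ENNReal.ofReal_mul (by positivity), ← ENNReal.ofReal_mul (by positivity)]
  apply ENNReal.ofReal_le_ofReal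
  have e1 : T ^ (2 - k + (13 + 2 * k) * e') = T ^ (1 - k + (13 + 2 * k) * e') * T := by
    rw [← Real.rpow_add_one hT0.ne']
    congr 1
    ring
  rw [e1]
  have e2 : 8 / T * (T ^ (1 - k + (13 + 2 * k) * e') * T) =
      8 * T ^ (1 - k + (13 + 2 * k) * e') := by
    field_simp
  rw [e2]
  refine mul_le_mul_of_nonneg_left ?_ (by norm_num)
  exact Real.rpow_le_rpow_of_exponent_le hT (by linarith)

/-- exponents of the tail -/
lemma exp2 (k : ℕ) (T e C1 : ℝ) (hT : 1 ≤ T) (he : 0 < e) :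
    ENNReal.ofReal ((C1 * T ^ (-(k : ℝ))) ^ 4) * ENNReal.ofReal T ≤
      ENNReal.ofReal (C1 ^ 4) * ENNReal.ofReal (T ^ (1 - k + e)) := by
  have hT0 : 0 < T := by linarith
  have h4 : (0 : ℝ) ≤ C1 ^ 4 := by positivity
  rw [← ENNReal.ofReal_mul (by positivity), ← ENNReal.ofReal_mul (by positivity)]
  apply ENNReal.ofReal_le_ofReal
  have e1 : (C1 * T ^ (-(k : ℝ))) ^ 4 * T = C1 ^ 4 * T ^ (1 - 4 * (k : ℝ)) := by
    rw [mul_pow, ← Real.rpow_natCast (T ^ (-(k : ℝ))) 4, ← Real.rpow_mul hT0.le, mul_assoc,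
      ← Real.rpow_add_one hT0.ne']
    congr 2
    push_cast
    ring
  rw [e1]
  refine mul_le_mul_of_nonneg_left ?_ h4
  have : (0 : ℝ) ≤ k := Nat.cast_nonneg k
  exact Real.rpow_le_rpow_of_exponent_le hT (by linarith)

/-- the final computation -/
lemma fin (A C2 C3 V Q m M S r X a b t c4 : ℝ≥0∞) (hM : M ≤ A ^ 4 * (a * m)) (hm : m ≤ C2 * b * Q)
    (h1 : a * b ≤ ENNReal.ofReal 8 * X) (h2 : c4 * t ≤ S * X) :
    8 * M + 8 * (C3 * c4 * Q) * V * (r * t) ≤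
      (8 * (A ^ 4 * (ENNReal.ofReal 8 * C2)) + 8 * (C3 * S * V * r)) * X * Q := by
  calc 8 * M + 8 * (C3 * c4 * Q) * V * (r * t)
      ≤ 8 * (A ^ 4 * (a * (C2 * b * Q))) + 8 * (C3 * c4 * Q) * V * (r * t) := by
        refine add_le_add (mul_le_mul' le_rfl (hM.trans ?_)) le_rfl
        exact mul_le_mul' le_rfl (mul_le_mul' le_rfl hm)
    _ = 8 * (A ^ 4 * C2 * (a * b)) * Q + 8 * (C3 * V * r * (c4 * t)) * Q := by ring
    _ ≤ 8 * (A ^ 4 * C2 * (ENNReal.ofReal 8 * X)) * Q + 8 * (C3 * V * r * (S * X)) * Q := by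
        refine add_le_add ?_ ?_
        · exact mul_le_mul' (mul_le_mul' le_rfl (mul_le_mul' le_rfl h1)) le_rfl
        · exact mul_le_mul' (mul_le_mul' le_rfl (mul_le_mul' le_rfl h2)) le_rfl
    _ = _ := by ring

/-- The averaged fourth moment with a cut-off amplitude. -/
theorem t_ME (h1 : S_SUB) (h2 : S_M0) (h3 : S_TAIL) (h4 : S_FUB) (h5 : S_MU) : S_ME := by
  intro k η hη e he
  have hk : (0 : ℝ) < 13 + 2 * k := by positivity
  obtain ⟨e', he0, he1, hee⟩ : ∃ e' : ℝ, 0 < e' ∧ e' < 1 ∧ (13 + 2 * k) * e' ≤ e := by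
    refine ⟨min (1 / 2) (e / (13 + 2 * k)), lt_min (by norm_num) (by positivity),
      (min_le_left _ _).trans_lt (by norm_num), ?_⟩
    calc (13 + 2 * k) * min (1 / 2) (e / (13 + 2 * k))
        ≤ (13 + 2 * k) * (e / (13 + 2 * k)) := by
          gcongr
          exact min_le_right _ _
      _ = e := by field_simp
  obtain ⟨G, Gc, Gi, hG⟩ := h1 η hη
  obtain ⟨C1, hC1, hG⟩ := hG e' he0 he1 k
  obtain ⟨C2, hC2, hM⟩ := h2 k e' he0 he1
  obtain ⟨C3, hC3, hTl⟩ := h3 k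
  have hAf : ∫⁻ z, ‖G z‖ₑ < ⊤ := Gi.2
  have hVf : volume (Icc (fun _ : Fin k => (0 : ℝ)) (fun _ => 2)) < ⊤ :=
    isCompact_Icc.measure_lt_top
  have h8 : (8 : ℝ≥0∞) < ⊤ := by norm_num
  refine ⟨8 * ((∫⁻ z, ‖G z‖ₑ) ^ 4 * (ENNReal.ofReal 8 * C2)) + 8 * (C3 * ENNReal.ofReal (C1 ^ 4) *
    volume (Icc (fun _ : Fin k => (0 : ℝ)) (fun _ => 2)) * ENNReal.ofReal (3 / 2)), ?_, ?_⟩
  · refine ENNReal.add_lt_top.2 ⟨?_, ?_⟩
    · exact ENNReal.mul_lt_top h8 (ENNReal.mul_lt_top (ENNReal.pow_lt_top hAf)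
        (ENNReal.mul_lt_top ENNReal.ofReal_lt_top hC2))
    · exact ENNReal.mul_lt_top h8 (ENNReal.mul_lt_top (ENNReal.mul_lt_top
        (ENNReal.mul_lt_top hC3 ENNReal.ofReal_lt_top) hVf) ENNReal.ofReal_lt_top)
  intro T hT M f hf
  have hT0 : 0 < T := by linarith
  have hδ0 : 0 ≤ C1 * T ^ (-(k : ℝ)) := by positivity
  have d1 : ∀ t ∈ Icc (T / 2) (2 * T), ∀ w (u : Fin k → ℝ),
      ∫⁻ x, ‖𝓕 (ge η t w u f) x‖ₑ ^ 4 ≤
        8 * (∫⁻ x, ‖∫ z in Icc (-(T / 4)) (T / 4), G z * U0 T e' ((t + z) ^ 2 / 4) w u f x‖ₑ ^ 4) +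
          8 * (C3 * ENNReal.ofReal ((C1 * T ^ (-(k : ℝ))) ^ 4) * ∫⁻ z, ‖f z‖ₑ ^ 4) := by
    intro t ht w u
    obtain ⟨Er, hErm, hErb, hEr⟩ := hG T hT t ht.1 ht.2
    have hF := h4 k M T e' t w (C1 * T ^ (-(k : ℝ))) u f η G Er hf hT he0 he1 hη Gc Gi hErm hErb hEr
    have hpw : Measurable fun z : E k => pw w u z := by
      unfold pw
      fun_prop
    have htl := hTl M (C1 * T ^ (-(k : ℝ))) f (fun z => Er (pw w u z)) hf hδ0 (hErm.comp hpw)
      (fun z => hErb _)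
    exact addp volume _ _ _ hF (mainm h5 k T e' t w u f hf.meas G Gc) _ htl
  refine (dec3 k T _ _ _ d1).trans ?_
  exact fin _ _ _ _ _ _ _ _ _ _ _ _ _ _ (main h5 k T e' hT f hf.meas G Gc) (hM T hT M f hf)
    (exp1 k T e e' hT hee) (exp2 k T e C1 hT he)

end Pool.Agent.W7.SP
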